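import Mathlib

/-!
# Diamond-free families in grids

The asked formula says that for every `d ≥ 2` the weak and the strong diamond
densities of the grid `[k]^d` exist and equal `2 + 1/d`.  It fails for `d = 2` in the
strong version: `[k]^2` has a strong diamond-free family of `3k - 4` points.
-/

namespace Pool.Agent.Results.MP_0b0399_co.DiamondGrid

open Filter Topology

/-- The grid `[k]^d`, with the coordinatewise order of the function type. -/
abbrev Grid (k d : ℕ) : Type := Fin d → Fin k

/-- `F` contains a weak copy of `P`. -/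
def HasWeakCopy (P : Type) [PartialOrder P] {Q : Type} [PartialOrder Q] (F : Finset Q) : Prop :=
  ∃ f : P → Q, Function.Injective f ∧ (∀ p, f p ∈ F) ∧ ∀ p q, p ≤ q → f p ≤ f q

/-- `F` contains a strong (induced) copy of `P`. -/
def HasStrongCopy (P : Type) [PartialOrder P] {Q : Type} [PartialOrder Q] (F : Finset Q) : Prop :=
  ∃ f : P → Q, Function.Injective f ∧ (∀ p, f p ∈ F) ∧ ∀ p q, p ≤ q ↔ f p ≤ f q

/-- The width of the grid: the largest size of an antichain. -/
noncomputable def w (k d : ℕ) : ℕ :=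
  sSup {n | ∃ F : Finset (Grid k d), IsAntichain (· ≤ ·) (F : Set (Grid k d)) ∧ F.card = n}

/-- The largest size of a weak `P`-free family in `[k]^d`. -/
noncomputable def La (k d : ℕ) (P : Type) [PartialOrder P] : ℕ :=
  sSup {n | ∃ F : Finset (Grid k d), ¬ HasWeakCopy P F ∧ F.card = n}

/-- The largest size of a strong `P`-free family in `[k]^d`. -/
noncomputable def LaStar (k d : ℕ) (P : Type) [PartialOrder P] : ℕ :=
  sSup {n | ∃ F : Finset (Grid k d), ¬ HasStrongCopy P F ∧ F.card = n}

/-- The diamond `D₂`: bottom `(false, false)`, top `(true, true)` and two incomparable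
middle elements, in the product order. -/
abbrev D2 : Type := Bool × Bool

/-- The asked statement. -/
def Asked : Prop :=
  ∀ d : ℕ, 2 ≤ d →
    Tendsto (fun k : ℕ => (La k d D2 : ℝ) / (w k d : ℝ)) atTop (𝓝 (2 + 1 / (d : ℝ))) ∧
    Tendsto (fun k : ℕ => (LaStar k d D2 : ℝ) / (w k d : ℝ)) atTop (𝓝 (2 + 1 / (d : ℝ)))

lemma card_le_of_antichain {k : ℕ} (F : Finset (Grid k 2))
    (hF : IsAntichain (· ≤ ·) (F : Set (Grid k 2))) : F.card ≤ k := by
  have hinj : Set.InjOn (fun x : Grid k 2 => x 0) (F : Set (Grid k 2)) := by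
    intro x hx y hy hxy
    by_contra hne
    have hxy0 : x 0 = y 0 := hxy
    rcases le_total (x 1) (y 1) with h | h
    · refine hF hx hy hne ?_
      intro i
      fin_cases i
      · exact le_of_eq hxy0
      · exact h
    · refine hF hy hx (Ne.symm hne) ?_
      intro i
      fin_cases i
      · exact le_of_eq hxy0.symm
      · exact h
  calc F.card = (F.image (fun x : Grid k 2 => x 0)).card := (Finset.card_image_of_injOn hinj).symm
    _ ≤ (Finset.univ : Finset (Fin k)).card := Finset.card_le_card (Finset.subset_univ _)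
    _ = k := by simp

lemma w_le (k : ℕ) : w k 2 ≤ k := by
  unfold w
  apply csSup_le
  · exact ⟨0, ∅, by simp, by simp⟩
  · rintro n ⟨F, hF, rfl⟩
    exact card_le_of_antichain F hF

lemma w_pos (k : ℕ) (hk : 1 ≤ k) : 1 ≤ w k 2 := by
  unfold w
  apply le_csSup
  · refine ⟨k, ?_⟩
    rintro n ⟨F, hF, rfl⟩
    exact card_le_of_antichain F hF
  · refine ⟨{fun _ => ⟨0, hk⟩}, by simp, by simp⟩

lemma le_LaStar {k d : ℕ} {P : Type} [PartialOrder P] (F : Finset (Grid k d))
    (hF : ¬ HasStrongCopy P F) : F.card ≤ LaStar k d P := by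
  unfold LaStar
  apply le_csSup
  · refine ⟨Fintype.card (Grid k d), ?_⟩
    rintro n ⟨F, hF, rfl⟩
    exact Finset.card_le_univ F
  · exact ⟨F, hF, rfl⟩

/-- The family: the antidiagonal, the top row and the right column, without the corner. -/
def fam (n : ℕ) : Finset (Grid (n + 1) 2) :=
  Finset.univ.filter fun x =>
    ((x 0).val + (x 1).val = n) ∨ ((x 0).val = n ∧ (x 1).val < n) ∨ ((x 1).val = n ∧ (x 0).val < n)

lemma fam_free (n : ℕ) : ¬ HasStrongCopy D2 (fam n) := by
  rintro ⟨f, hinj, hmem, hord⟩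
  -- the four images
  have hab : f (false, false) ≤ f (true, false) := (hord _ _).1 (by decide)
  have hac : f (false, false) ≤ f (false, true) := (hord _ _).1 (by decide)
  have hbe : f (true, false) ≤ f (true, true) := (hord _ _).1 (by decide)
  have hce : f (false, true) ≤ f (true, true) := (hord _ _).1 (by decide)
  have hbc : ¬ f (true, false) ≤ f (false, true) := fun h => absurd ((hord _ _).2 h) (by decide)
  have hcb : ¬ f (false, true) ≤ f (true, false) := fun h => absurd ((hord _ _).2 h) (by decide)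
  have hba : ¬ f (true, false) ≤ f (false, false) := fun h => absurd ((hord _ _).2 h) (by decide)
  have hca : ¬ f (false, true) ≤ f (false, false) := fun h => absurd ((hord _ _).2 h) (by decide)
  have ha := hmem (false, false)
  have hb := hmem (true, false)
  have hc := hmem (false, true)
  have he := hmem (true, true)
  generalize f (false, false) = a at *
  generalize f (true, false) = b at *
  generalize f (false, true) = c at *
  generalize f (true, true) = e at *
  simp only [fam, Finset.mem_filter, Finset.mem_univ, true_and] at ha hb hc he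
  have key : ∀ x y : Grid (n + 1) 2, x ≤ y ↔ (x 0).val ≤ (y 0).val ∧ (x 1).val ≤ (y 1).val := by
    intro x y
    constructor
    · intro h; exact ⟨h 0, h 1⟩
    · rintro ⟨h0, h1⟩ i
      fin_cases i
      · exact h0
      · exact h1
  rw [key] at hab hac hbe hce hbc hcb hba hca
  have := (a 0).isLt
  have := (a 1).isLt
  have := (b 0).isLt
  have := (b 1).isLt
  have := (c 0).isLt
  have := (c 1).isLt
  have := (e 0).isLt
  have := (e 1).isLt
  omega

lemma card_fam (n : ℕ) (hn : 1 ≤ n) : 3 * n - 1 ≤ (fam n).card := by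
  -- three injective families of points
  classical
  let g1 : Fin (n + 1) → Grid (n + 1) 2 := fun i => ![i, ⟨n - i.val, by omega⟩]
  let g2 : Fin (n - 1) → Grid (n + 1) 2 := fun i => ![⟨n, by omega⟩, ⟨i.val + 1, by omega⟩]
  let g3 : Fin (n - 1) → Grid (n + 1) 2 := fun i => ![⟨i.val + 1, by omega⟩, ⟨n, by omega⟩]
  have h1 : Function.Injective g1 := by
    intro i j hij
    have := congrFun hij 0
    simpa [g1] using this
  have h2 : Function.Injective g2 := by
    intro i j hij
    have := congrFun hij 1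
    simp [g2] at this
    exact Fin.ext (by omega)
  have h3 : Function.Injective g3 := by
    intro i j hij
    have := congrFun hij 0
    simp [g3] at this
    exact Fin.ext (by omega)
  let A1 := Finset.univ.map ⟨g1, h1⟩
  let A2 := Finset.univ.map ⟨g2, h2⟩
  let A3 := Finset.univ.map ⟨g3, h3⟩
  have d12 : Disjoint A1 A2 := by
    rw [Finset.disjoint_left]
    intro x hx1 hx2
    simp only [A1, A2, Finset.mem_map, Finset.mem_univ, true_and, Function.Embedding.coeFn_mk] at hx1 hx2
    obtain ⟨i, rfl⟩ := hx1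
    obtain ⟨j, hj⟩ := hx2
    have e0 := congrArg Fin.val (congrFun hj 0)
    have e1 := congrArg Fin.val (congrFun hj 1)
    simp [g1, g2] at e0 e1
    omega
  have d13 : Disjoint A1 A3 := by
    rw [Finset.disjoint_left]
    intro x hx1 hx2
    simp only [A1, A3, Finset.mem_map, Finset.mem_univ, true_and, Function.Embedding.coeFn_mk] at hx1 hx2
    obtain ⟨i, rfl⟩ := hx1
    obtain ⟨j, hj⟩ := hx2
    have e0 := congrArg Fin.val (congrFun hj 0)
    have e1 := congrArg Fin.val (congrFun hj 1)
    simp [g1, g3] at e0 e1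
    omega
  have d23 : Disjoint A2 A3 := by
    rw [Finset.disjoint_left]
    intro x hx1 hx2
    simp only [A2, A3, Finset.mem_map, Finset.mem_univ, true_and, Function.Embedding.coeFn_mk] at hx1 hx2
    obtain ⟨i, rfl⟩ := hx1
    obtain ⟨j, hj⟩ := hx2
    have e0 := congrArg Fin.val (congrFun hj 0)
    have e1 := congrArg Fin.val (congrFun hj 1)
    simp [g2, g3] at e0 e1
    omega
  have d123 : Disjoint (A1 ∪ A2) A3 := Finset.disjoint_union_left.2 ⟨d13, d23⟩
  have hsub : (A1 ∪ A2) ∪ A3 ⊆ fam n := by
    intro x hx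
    simp only [A1, A2, A3, Finset.mem_union, Finset.mem_map, Finset.mem_univ, true_and,
      Function.Embedding.coeFn_mk] at hx
    simp only [fam, Finset.mem_filter, Finset.mem_univ, true_and]
    rcases hx with (⟨i, rfl⟩ | ⟨i, rfl⟩) | ⟨i, rfl⟩
    · left; simp [g1]; omega
    · right; left; simp [g2]; omega
    · right; right; simp [g3]; omega
  have hc := Finset.card_le_card hsub
  rw [Finset.card_union_of_disjoint d123, Finset.card_union_of_disjoint d12] at hc
  simp only [A1, A2, A3, Finset.card_map, Finset.card_univ, Fintype.card_fin] at hc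
  omega

/-- The lower bound `La*([k]^2, D₂) ≥ 3k - 4`. -/
lemma LaStar_ge (k : ℕ) (hk : 2 ≤ k) : 3 * k - 4 ≤ LaStar k 2 D2 := by
  obtain ⟨n, rfl⟩ : ∃ n, k = n + 1 := ⟨k - 1, by omega⟩
  have h1 := card_fam n (by omega)
  have h2 := le_LaStar (fam n) (fam_free n)
  omega

/-- **The asked statement is false.**  Already in dimension two the strong version fails:
`La*([k]^2, D₂) ≥ 3k - 4` for every `k ≥ 2`, while the width of `[k]^2` is at most `k`, so the
ratio does not tend to `2 + 1/2`. -/
theorem result :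
    (∀ k : ℕ, 2 ≤ k → 3 * k - 4 ≤ LaStar k 2 D2 ∧ w k 2 ≤ k) ∧
    ¬ Tendsto (fun k : ℕ => (LaStar k 2 D2 : ℝ) / (w k 2 : ℝ)) atTop (𝓝 (2 + 1 / ((2 : ℕ) : ℝ))) ∧
    ¬ Asked := by
  have hnot : ¬ Tendsto (fun k : ℕ => (LaStar k 2 D2 : ℝ) / (w k 2 : ℝ)) atTop
      (𝓝 (2 + 1 / ((2 : ℕ) : ℝ))) := by
    intro h
    have h1 : ∀ᶠ k : ℕ in atTop, (LaStar k 2 D2 : ℝ) / (w k 2 : ℝ) < 2.6 :=
      h.eventually_lt_const (by norm_num)
    obtain ⟨k, hk1, hk2⟩ := (h1.and (eventually_ge_atTop 11)).exists
    have hw0 : (1 : ℝ) ≤ (w k 2 : ℝ) := by exact_mod_cast w_pos k (by omega)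
    have hw1 : (w k 2 : ℝ) ≤ k := by exact_mod_cast w_le k
    have hL : 3 * k ≤ LaStar k 2 D2 + 4 := by
      have := LaStar_ge k (by omega)
      omega
    have hL' : 3 * (k : ℝ) ≤ LaStar k 2 D2 + 4 := by exact_mod_cast hL
    have hk' : (11 : ℝ) ≤ k := by exact_mod_cast hk2
    rw [div_lt_iff₀ (by linarith)] at hk1
    nlinarith
  refine ⟨fun k hk => ⟨LaStar_ge k hk, w_le k⟩, hnot, ?_⟩
  intro h
  exact hnot (h 2 le_rfl).2

end Pool.Agent.Results.MP_0b0399_co.DiamondGrid
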